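import Mathlib

/-!
# A free group of infinite rank inside SL(2, Z) with natural number entries

`psi : FreeGroup ℕ →* SL(2, ℤ)` sends the `i`-th generator to `[[1+4i, 4i+8i^2],[2,1+4i]]`.
It is injective (ping-pong).
-/

namespace Pool.Agent.H84

open Matrix

/-- nonzero integer vectors -/
abbrev NZ : Type := {v : ℤ × ℤ // v ≠ 0}

abbrev SL2 : Type := Matrix.SpecialLinearGroup (Fin 2) ℤ

/-- the linear action of an element of SL(2,ℤ) on pairs of integers -/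
def actV (g : SL2) (v : ℤ × ℤ) : ℤ × ℤ :=
  (g 0 0 * v.1 + g 0 1 * v.2, g 1 0 * v.1 + g 1 1 * v.2)

theorem actV_one (v : ℤ × ℤ) : actV 1 v = v := by
  ext <;> simp [actV]

theorem actV_mul (g h : SL2) (v : ℤ × ℤ) : actV (g * h) v = actV g (actV h v) := by
  ext <;> simp [actV, Matrix.mul_apply, Fin.sum_univ_two] <;> ring

theorem actV_zero (g : SL2) : actV g 0 = 0 := by
  ext <;> simp [actV]

theorem actV_ne (g : SL2) {v : ℤ × ℤ} (h : v ≠ 0) : actV g v ≠ 0 := by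
  intro h0
  apply h
  have : actV (g⁻¹ * g) v = 0 := by rw [actV_mul, h0, actV_zero]
  rwa [inv_mul_cancel, actV_one] at this

instance : MulAction SL2 NZ where
  smul g v := ⟨actV g v.1, actV_ne g v.2⟩
  one_smul v := Subtype.ext (actV_one v.1)
  mul_smul g h v := Subtype.ext (actV_mul g h v.1)

theorem smul_val (g : SL2) (v : NZ) : (g • v).1 = actV g v.1 := rfl

/-- the matrix `[[1+4i, 4i+8i^2],[2,1+4i]]` -/
def gen (i : ℕ) : SL2 :=
  ⟨!![1 + 4 * (i : ℤ), 4 * i + 8 * i ^ 2; 2, 1 + 4 * i], by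
    rw [Matrix.det_fin_two_of]; ring⟩

theorem gen_inv (i : ℕ) : (gen i)⁻¹ =
    ⟨!![1 + 4 * (i : ℤ), - (4 * i + 8 * i ^ 2); -2, 1 + 4 * i], by
      rw [Matrix.det_fin_two_of]; ring⟩ := by
  apply Subtype.ext
  rw [Matrix.SpecialLinearGroup.coe_inv]
  simp [gen, Matrix.adjugate_fin_two_of]

def XX (i : ℕ) : Set NZ :=
  {v | (0 < v.1.2 ∧ 2 * (i : ℤ) * v.1.2 ≤ v.1.1 ∧ v.1.1 ≤ (2 * i + 1) * v.1.2) ∨
       (v.1.2 < 0 ∧ v.1.1 ≤ 2 * (i : ℤ) * v.1.2 ∧ (2 * i + 1) * v.1.2 ≤ v.1.1)}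

def YY (i : ℕ) : Set NZ :=
  {v | (0 < v.1.2 ∧ - (2 * (i : ℤ) + 1) * v.1.2 < v.1.1 ∧ v.1.1 < - (2 * i) * v.1.2) ∨
       (v.1.2 < 0 ∧ v.1.1 < - (2 * (i : ℤ) + 1) * v.1.2 ∧ - (2 * i) * v.1.2 < v.1.1)}

theorem XX_disj {i j : ℕ} (hij : i ≠ j) : Disjoint (XX i) (XX j) := by
  rw [Set.disjoint_left]
  rintro ⟨⟨p, q⟩, hv⟩ h1 h2
  simp only [XX, Set.mem_ofPred_eq] at h1 h2
  have hij' : (i : ℤ) ≠ j := by exact_mod_cast hij
  rcases lt_or_gt_of_ne hij' with h | h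
  · rcases h1 with ⟨h1, h3, h4⟩ | ⟨h1, h3, h4⟩ <;> rcases h2 with ⟨h2, h5, h6⟩ | ⟨h2, h5, h6⟩ <;>
      first | omega | nlinarith
  · rcases h1 with ⟨h1, h3, h4⟩ | ⟨h1, h3, h4⟩ <;> rcases h2 with ⟨h2, h5, h6⟩ | ⟨h2, h5, h6⟩ <;>
      first | omega | nlinarith

theorem YY_disj {i j : ℕ} (hij : i ≠ j) : Disjoint (YY i) (YY j) := by
  rw [Set.disjoint_left]
  rintro ⟨⟨p, q⟩, hv⟩ h1 h2
  simp only [YY, Set.mem_ofPred_eq] at h1 h2
  have hij' : (i : ℤ) ≠ j := by exact_mod_cast hij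
  rcases lt_or_gt_of_ne hij' with h | h
  · rcases h1 with ⟨h1, h3, h4⟩ | ⟨h1, h3, h4⟩ <;> rcases h2 with ⟨h2, h5, h6⟩ | ⟨h2, h5, h6⟩ <;>
      first | omega | nlinarith
  · rcases h1 with ⟨h1, h3, h4⟩ | ⟨h1, h3, h4⟩ <;> rcases h2 with ⟨h2, h5, h6⟩ | ⟨h2, h5, h6⟩ <;>
      first | omega | nlinarith

theorem XXYY_disj (i j : ℕ) : Disjoint (XX i) (YY j) := by
  rw [Set.disjoint_left]
  rintro ⟨⟨p, q⟩, hv⟩ h1 h2
  simp only [XX, YY, Set.mem_ofPred_eq] at h1 h2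
  have hi : (0 : ℤ) ≤ i := by positivity
  have hj : (0 : ℤ) ≤ j := by positivity
  rcases h1 with ⟨h1, h3, h4⟩ | ⟨h1, h3, h4⟩ <;> rcases h2 with ⟨h2, h5, h6⟩ | ⟨h2, h5, h6⟩ <;>
      first | omega | nlinarith

theorem lift_gen_injective {ι : Type} [Nontrivial ι] (e : ι → ℕ) (he : Function.Injective e) :
    Function.Injective (FreeGroup.lift (fun i => gen (e i))) := by
  apply FreeGroup.injective_lift_of_ping_pong (fun i => gen (e i))
    (fun i => XX (e i)) (fun i => YY (e i))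
  · intro i
    generalize e i = i
    refine ⟨⟨(2 * (i : ℤ), 1), ?_⟩, ?_⟩
    · intro h
      have := congrArg Prod.snd h
      simp at this
    · left
      refine ⟨by norm_num, by simp, by simp⟩
  · intro i j hij
    exact XX_disj (fun h => hij (he h))
  · intro i j hij
    exact YY_disj (fun h => hij (he h))
  · intro i j
    exact XXYY_disj _ _
  · intro i w hw
    obtain ⟨v, hv, rfl⟩ := hw
    simp only [Pi.inv_apply] at *
    generalize e i = i at *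
    obtain ⟨⟨p, q⟩, hne⟩ := v
    simp only [YY, Set.mem_compl_iff, Set.mem_ofPred_eq] at hv
    simp only [XX, Set.mem_ofPred_eq]
    have e1 : (actV (gen i) (p, q)).2 = 2 * (p + 2 * i * q) + q := by
      simp [actV, gen]; ring
    have e2 : (actV (gen i) (p, q)).1 =
        (p + 2 * i * q) + 2 * i * (2 * (p + 2 * i * q) + q) := by
      simp [actV, gen]; ring
    change (0 < (actV (gen i) (p, q)).2 ∧ 2 * (i : ℤ) * (actV (gen i) (p, q)).2 ≤
      (actV (gen i) (p, q)).1 ∧ (actV (gen i) (p, q)).1 ≤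
      (2 * (i : ℤ) + 1) * (actV (gen i) (p, q)).2) ∨
      ((actV (gen i) (p, q)).2 < 0 ∧ (actV (gen i) (p, q)).1 ≤
      2 * (i : ℤ) * (actV (gen i) (p, q)).2 ∧
      (2 * (i : ℤ) + 1) * (actV (gen i) (p, q)).2 ≤ (actV (gen i) (p, q)).1)
    rw [e1, e2]
    obtain ⟨P, hP⟩ : ∃ P, P = p + 2 * i * q := ⟨_, rfl⟩
    have hv1 : ¬ (0 < q ∧ -q < P ∧ P < 0) := by
      rintro ⟨h1, h2, h3⟩
      exact hv (Or.inl ⟨h1, by linarith, by linarith⟩)
    have hv2 : ¬ (q < 0 ∧ P < -q ∧ 0 < P) := by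
      rintro ⟨h1, h2, h3⟩
      exact hv (Or.inr ⟨h1, by linarith, by linarith⟩)
    have hv3 : ¬ (q = 0 ∧ P = 0) := by
      rintro ⟨h1, h2⟩
      apply hne
      subst h1
      simp at hP
      simp [← hP, h2]
    rw [← hP]
    by_cases hpos : 0 < 2 * P + q
    · left
      refine ⟨hpos, ?_, ?_⟩
      · have : 0 ≤ P := by omega
        linarith
      · have : P ≤ 2 * P + q := by omega
        linarith
    · right
      have hneg : 2 * P + q < 0 := by omega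
      refine ⟨hneg, ?_, ?_⟩
      · have : P ≤ 0 := by omega
        linarith
      · have : 2 * P + q ≤ P := by omega
        linarith
  · intro i w hw
    obtain ⟨v, hv, rfl⟩ := hw
    simp only [Pi.inv_apply] at *
    generalize e i = i at *
    obtain ⟨⟨p, q⟩, hne⟩ := v
    simp only [XX, Set.mem_compl_iff, Set.mem_ofPred_eq] at hv
    simp only [YY, Set.mem_ofPred_eq]
    have e1 : (actV ((gen i)⁻¹) (p, q)).2 = q - 2 * (p - 2 * i * q) := by
      rw [gen_inv]; simp [actV]; ring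
    have e2 : (actV ((gen i)⁻¹) (p, q)).1 =
        (p - 2 * i * q) - 2 * i * (q - 2 * (p - 2 * i * q)) := by
      rw [gen_inv]; simp [actV]; ring
    change (0 < (actV ((gen i)⁻¹) (p, q)).2 ∧ - (2 * (i : ℤ) + 1) * (actV ((gen i)⁻¹) (p, q)).2 <
      (actV ((gen i)⁻¹) (p, q)).1 ∧ (actV ((gen i)⁻¹) (p, q)).1 <
      - (2 * (i : ℤ)) * (actV ((gen i)⁻¹) (p, q)).2) ∨
      ((actV ((gen i)⁻¹) (p, q)).2 < 0 ∧ (actV ((gen i)⁻¹) (p, q)).1 <
      - (2 * (i : ℤ) + 1) * (actV ((gen i)⁻¹) (p, q)).2 ∧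
      - (2 * (i : ℤ)) * (actV ((gen i)⁻¹) (p, q)).2 < (actV ((gen i)⁻¹) (p, q)).1)
    rw [e1, e2]
    obtain ⟨P, hP⟩ : ∃ P, P = p - 2 * i * q := ⟨_, rfl⟩
    have hv1 : ¬ (0 < q ∧ 0 ≤ P ∧ P ≤ q) := by
      rintro ⟨h1, h2, h3⟩
      exact hv (Or.inl ⟨h1, by linarith, by linarith⟩)
    have hv2 : ¬ (q < 0 ∧ P ≤ 0 ∧ q ≤ P) := by
      rintro ⟨h1, h2, h3⟩
      exact hv (Or.inr ⟨h1, by linarith, by linarith⟩)
    have hv3 : ¬ (q = 0 ∧ P = 0) := by
      rintro ⟨h1, h2⟩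
      apply hne
      subst h1
      simp at hP
      simp [← hP, h2]
    rw [← hP]
    by_cases hpos : 0 < q - 2 * P
    · left
      refine ⟨hpos, ?_, ?_⟩
      · have : 0 < q - P := by omega
        linarith
      · have : P < 0 := by omega
        linarith
    · right
      have hneg : q - 2 * P < 0 := by omega
      refine ⟨hneg, ?_, ?_⟩
      · have : q - P < 0 := by omega
        linarith
      · have : 0 < P := by omega
        linarith

end Pool.Agent.H84
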